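import Mathlib

/-! A 23-dimensional nilpotent associative algebra `R = A + B` over a commutative ring `k`,
and its adjoint group `1 + R`, written in coordinates: `x * y` stands for `x + y + x y`. -/

namespace Pool.Agent.MP_c57c58_al.H48

@[ext]
structure G (k : Type) where
  x0 : k
  x1 : k
  x2 : k
  x3 : k
  x4 : k
  x5 : k
  x6 : k
  x7 : k
  x8 : k
  x9 : k
  x10 : k
  x11 : k
  x12 : k
  x13 : k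
  x14 : k
  x15 : k
  x16 : k
  x17 : k
  x18 : k
  x19 : k
  x20 : k
  x21 : k
  x22 : k

variable {k : Type} [CommRing k]

def G.mul (x y : G k) : G k :=
  ⟨x.x0 + y.x0,
    x.x1 + y.x1,
    x.x2 + y.x2,
    x.x3 + y.x3,
    x.x4 + y.x4 + x.x0 * y.x1,
    x.x5 + y.x5 + x.x1 * y.x0,
    x.x6 + y.x6 + x.x1 * y.x2,
    x.x7 + y.x7 + x.x2 * y.x1,
    x.x8 + y.x8 + x.x0 * y.x3,
    x.x9 + y.x9 + x.x0 * y.x3,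
    x.x10 + y.x10 + x.x0 * y.x6 + x.x4 * y.x2,
    x.x11 + y.x11 + x.x2 * y.x5 + x.x7 * y.x0,
    x.x12 + y.x12 + x.x2 * y.x5 + x.x7 * y.x0,
    x.x13 + y.x13 + x.x1 * y.x7 + x.x6 * y.x1,
    x.x14 + y.x14 + x.x1 * y.x9 + x.x5 * y.x3,
    x.x15 + y.x15 + x.x8 * y.x1 - x.x9 * y.x1,
    x.x16 + y.x16 + x.x0 * y.x13 + x.x10 * y.x1 + x.x11 * y.x1 - x.x12 * y.x1 + x.x4 * y.x7,
    x.x17 + y.x17 + x.x1 * y.x11 + x.x13 * y.x0 + x.x6 * y.x5,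
    x.x18 + y.x18 + x.x1 * y.x12 + x.x13 * y.x0 + x.x6 * y.x5,
    x.x19 + y.x19 + x.x12 * y.x3 + x.x2 * y.x14 + x.x7 * y.x9,
    x.x20 + y.x20 + x.x0 * y.x18 + x.x10 * y.x5 + x.x11 * y.x5 - x.x12 * y.x5 + x.x16 * y.x0 + x.x4 * y.x12,
    x.x21 + y.x21 + x.x1 * y.x19 + x.x13 * y.x9 + x.x18 * y.x3 + x.x6 * y.x14,
    x.x22 + y.x22 + x.x0 * y.x21 + x.x10 * y.x14 + x.x11 * y.x14 - x.x12 * y.x14 + x.x15 * y.x11 - x.x15 * y.x12 + x.x16 * y.x9 + x.x20 * y.x3 + x.x4 * y.x19 + x.x8 * y.x17 - x.x8 * y.x18 - x.x9 * y.x17 + x.x9 * y.x18⟩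

def G.inv (x : G k) : G k :=
  ⟨-x.x0,
    -x.x1,
    -x.x2,
    -x.x3,
    -x.x4 + x.x0 * x.x1,
    -x.x5 + x.x0 * x.x1,
    -x.x6 + x.x1 * x.x2,
    -x.x7 + x.x1 * x.x2,
    -x.x8 + x.x0 * x.x3,
    -x.x9 + x.x0 * x.x3,
    -x.x10 + x.x0 * x.x6 + x.x2 * x.x4 - x.x0 * x.x1 * x.x2,
    -x.x11 + x.x0 * x.x7 + x.x2 * x.x5 - x.x0 * x.x1 * x.x2,
    -x.x12 + x.x0 * x.x7 + x.x2 * x.x5 - x.x0 * x.x1 * x.x2,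
    -x.x13 + x.x1 * x.x6 + x.x1 * x.x7 - x.x1 * x.x1 * x.x2,
    -x.x14 + x.x1 * x.x9 + x.x3 * x.x5 - x.x0 * x.x1 * x.x3,
    -x.x15 + x.x1 * x.x8 - x.x1 * x.x9,
    -x.x16 + x.x0 * x.x13 + x.x1 * x.x10 + x.x1 * x.x11 - x.x1 * x.x12 + x.x4 * x.x7 - x.x0 * x.x1 * x.x6 - x.x0 * x.x1 * x.x7 - x.x1 * x.x2 * x.x4 + x.x0 * x.x1 * x.x1 * x.x2,
    -x.x17 + x.x0 * x.x13 + x.x1 * x.x11 + x.x5 * x.x6 - x.x0 * x.x1 * x.x6 - x.x0 * x.x1 * x.x7 - x.x1 * x.x2 * x.x5 + x.x0 * x.x1 * x.x1 * x.x2,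
    -x.x18 + x.x0 * x.x13 + x.x1 * x.x12 + x.x5 * x.x6 - x.x0 * x.x1 * x.x6 - x.x0 * x.x1 * x.x7 - x.x1 * x.x2 * x.x5 + x.x0 * x.x1 * x.x1 * x.x2,
    -x.x19 + x.x12 * x.x3 + x.x14 * x.x2 + x.x7 * x.x9 - x.x0 * x.x3 * x.x7 - x.x1 * x.x2 * x.x9 - x.x2 * x.x3 * x.x5 + x.x0 * x.x1 * x.x2 * x.x3,
    -x.x20 + x.x0 * x.x16 + x.x0 * x.x18 + x.x10 * x.x5 + x.x11 * x.x5 + x.x12 * x.x4 - x.x12 * x.x5 - x.x0 * x.x0 * x.x13 - x.x0 * x.x1 * x.x10 - x.x0 * x.x1 * x.x11 - x.x0 * x.x4 * x.x7 - x.x0 * x.x5 * x.x6 - x.x2 * x.x4 * x.x5 + x.x0 * x.x0 * x.x1 * x.x6 + x.x0 * x.x0 * x.x1 * x.x7 + x.x0 * x.x1 * x.x2 * x.x4 + x.x0 * x.x1 * x.x2 * x.x5 - x.x0 * x.x0 * x.x1 * x.x1 * x.x2,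
    -x.x21 + x.x1 * x.x19 + x.x13 * x.x9 + x.x14 * x.x6 + x.x18 * x.x3 - x.x0 * x.x13 * x.x3 - x.x1 * x.x12 * x.x3 - x.x1 * x.x14 * x.x2 - x.x1 * x.x6 * x.x9 - x.x1 * x.x7 * x.x9 - x.x3 * x.x5 * x.x6 + x.x0 * x.x1 * x.x3 * x.x6 + x.x0 * x.x1 * x.x3 * x.x7 + x.x1 * x.x1 * x.x2 * x.x9 + x.x1 * x.x2 * x.x3 * x.x5 - x.x0 * x.x1 * x.x1 * x.x2 * x.x3,
    -x.x22 + x.x0 * x.x21 + x.x10 * x.x14 + x.x11 * x.x14 + x.x11 * x.x15 - x.x12 * x.x14 - x.x12 * x.x15 + x.x16 * x.x9 + x.x17 * x.x8 - x.x17 * x.x9 - x.x18 * x.x8 + x.x18 * x.x9 + x.x19 * x.x4 + x.x20 * x.x3 - x.x0 * x.x1 * x.x19 - x.x0 * x.x13 * x.x9 - x.x0 * x.x14 * x.x6 - x.x0 * x.x16 * x.x3 - x.x0 * x.x18 * x.x3 - x.x1 * x.x10 * x.x9 - x.x1 * x.x11 * x.x8 + x.x1 * x.x12 * x.x8 - x.x10 * x.x3 * x.x5 - x.x11 * x.x3 * x.x5 - x.x12 * x.x3 * x.x4 + x.x12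 * x.x3 * x.x5 - x.x14 * x.x2 * x.x4 - x.x4 * x.x7 * x.x9 + x.x0 * x.x0 * x.x13 * x.x3 + x.x0 * x.x1 * x.x10 * x.x3 + x.x0 * x.x1 * x.x11 * x.x3 + x.x0 * x.x1 * x.x14 * x.x2 + x.x0 * x.x1 * x.x6 * x.x9 + x.x0 * x.x1 * x.x7 * x.x9 + x.x0 * x.x3 * x.x4 * x.x7 + x.x0 * x.x3 * x.x5 * x.x6 + x.x1 * x.x2 * x.x4 * x.x9 + x.x2 * x.x3 * x.x4 * x.x5 - x.x0 * x.x0 * x.x1 * x.x3 * x.x6 - x.x0 * x.x0 * x.x1 * x.x3 * x.x7 - x.x0 * x.x1 * x.x1 * x.x2 * x.x9 - x.x0 * x.x1 * x.x2 * x.x3 * x.x4 - x.x0 * x.x1 * x.x2 * x.x3 * x.x5 + x.x0 * x.x0 * x.x1 * x.x1 * x.x2 * x.x3⟩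

def G.one : G k := ⟨0, 0, 0, 0, 0, 0, 0, 0, 0, 0, 0, 0, 0, 0, 0, 0, 0, 0, 0, 0, 0, 0, 0⟩

instance : Group (G k) where
  mul := G.mul
  one := G.one
  inv := G.inv
  mul_assoc x y z := by
    show G.mul (G.mul x y) z = G.mul x (G.mul y z)
    ext <;> simp only [G.mul] <;> ring
  one_mul x := by
    show G.mul G.one x = x
    ext <;> simp only [G.mul, G.one] <;> ring
  mul_one x := by
    show G.mul x G.one = x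
    ext <;> simp only [G.mul, G.one] <;> ring
  inv_mul_cancel x := by
    show G.mul (G.inv x) x = G.one
    ext <;> simp only [G.mul, G.inv, G.one] <;> ring

theorem mul_def (x y : G k) : x * y = G.mul x y := rfl
theorem inv_def (x : G k) : x⁻¹ = G.inv x := rfl
theorem one_def : (1 : G k) = G.one := rfl

def A (k : Type) [CommRing k] : Subgroup (G k) where
  carrier := {x | x.x0 = 0 ∧ x.x1 = 0 ∧ x.x4 = 0 ∧ x.x5 = 0 ∧ x.x9 = 0 ∧ x.x12 = 0 ∧ x.x14 = 0 ∧ x.x15 = 0 ∧ x.x16 = 0 ∧ x.x17 = 0 ∧ x.x18 = 0 ∧ x.x20 = 0 ∧ x.x22 = 0}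
  one_mem' := by simp [one_def, G.one]
  mul_mem' := by
    rintro x y ⟨h0, h1, h4, h5, h9, h12, h14, h15, h16, h17, h18, h20, h22⟩ ⟨g0, g1, g4, g5, g9, g12, g14, g15, g16, g17, g18, g20, g22⟩
    simp only [Set.mem_ofPred_eq, mul_def, G.mul, h0, h1, h4, h5, h9, h12, h14, h15, h16, h17, h18, h20, h22, g0, g1, g4, g5, g9, g12, g14, g15, g16, g17, g18, g20, g22]
    simp
  inv_mem' := by
    rintro x ⟨h0, h1, h4, h5, h9, h12, h14, h15, h16, h17, h18, h20, h22⟩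
    simp only [Set.mem_ofPred_eq, inv_def, G.inv, h0, h1, h4, h5, h9, h12, h14, h15, h16, h17, h18, h20, h22]
    simp

theorem mem_A {x : G k} : x ∈ A k ↔ x.x0 = 0 ∧ x.x1 = 0 ∧ x.x4 = 0 ∧ x.x5 = 0 ∧ x.x9 = 0 ∧ x.x12 = 0 ∧ x.x14 = 0 ∧ x.x15 = 0 ∧ x.x16 = 0 ∧ x.x17 = 0 ∧ x.x18 = 0 ∧ x.x20 = 0 ∧ x.x22 = 0 := Iff.rfl

def B (k : Type) [CommRing k] : Subgroup (G k) where
  carrier := {x | x.x2 = 0 ∧ x.x3 = 0 ∧ x.x6 = 0 ∧ x.x7 = 0 ∧ x.x8 = 0 ∧ x.x10 = 0 ∧ x.x11 = 0 ∧ x.x13 = 0 ∧ x.x19 = 0 ∧ x.x21 = 0}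
  one_mem' := by simp [one_def, G.one]
  mul_mem' := by
    rintro x y ⟨h2, h3, h6, h7, h8, h10, h11, h13, h19, h21⟩ ⟨g2, g3, g6, g7, g8, g10, g11, g13, g19, g21⟩
    simp only [Set.mem_ofPred_eq, mul_def, G.mul, h2, h3, h6, h7, h8, h10, h11, h13, h19, h21, g2, g3, g6, g7, g8, g10, g11, g13, g19, g21]
    simp
  inv_mem' := by
    rintro x ⟨h2, h3, h6, h7, h8, h10, h11, h13, h19, h21⟩
    simp only [Set.mem_ofPred_eq, inv_def, G.inv, h2, h3, h6, h7, h8, h10, h11, h13, h19, h21]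
    simp

theorem mem_B {x : G k} : x ∈ B k ↔ x.x2 = 0 ∧ x.x3 = 0 ∧ x.x6 = 0 ∧ x.x7 = 0 ∧ x.x8 = 0 ∧ x.x10 = 0 ∧ x.x11 = 0 ∧ x.x13 = 0 ∧ x.x19 = 0 ∧ x.x21 = 0 := Iff.rfl

theorem A_comm {x y : G k} (hx : x ∈ A k) (hy : y ∈ A k) : x * y = y * x := by
  obtain ⟨h0, h1, h4, h5, h9, h12, h14, h15, h16, h17, h18, h20, h22⟩ := hx
  obtain ⟨g0, g1, g4, g5, g9, g12, g14, g15, g16, g17, g18, g20, g22⟩ := hy
  ext <;> simp only [mul_def, G.mul, h0, h1, h4, h5, h9, h12, h14, h15, h16, h17, h18, h20, h22, g0, g1, g4, g5, g9, g12, g14, g15, g16, g17, g18, g20, g22] <;> ring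

theorem A_inf_B {x : G k} (hx : x ∈ A k) (hy : x ∈ B k) : x = 1 := by
  obtain ⟨h0, h1, h4, h5, h9, h12, h14, h15, h16, h17, h18, h20, h22⟩ := hx
  obtain ⟨h2, h3, h6, h7, h8, h10, h11, h13, h19, h21⟩ := hy
  ext <;> simp only [one_def, G.one] <;> assumption

def G.pa (x : G k) : G k :=
  ⟨0,
    0,
    x.x2,
    x.x3,
    0,
    0,
    x.x6,
    x.x7 - x.x1 * x.x2,
    x.x8,
    0,
    x.x10,
    x.x11 - x.x0 * x.x7 - x.x2 * x.x5 + x.x0 * x.x1 * x.x2,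
    0,
    x.x13 - x.x1 * x.x6,
    0,
    0,
    0,
    0,
    0,
    x.x19 - x.x14 * x.x2 - x.x7 * x.x9 + x.x1 * x.x2 * x.x9,
    0,
    x.x21 - x.x13 * x.x9 - x.x14 * x.x6 + x.x1 * x.x6 * x.x9,
    0⟩

def G.pb (x : G k) : G k :=
  ⟨x.x0,
    x.x1,
    0,
    0,
    x.x4,
    x.x5,
    0,
    0,
    0,
    x.x9,
    0,
    0,
    x.x12 - x.x0 * x.x7 - x.x2 * x.x5 + x.x0 * x.x1 * x.x2,
    0,
    x.x14,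
    x.x15 - x.x1 * x.x8,
    x.x16 - x.x1 * x.x10 - x.x1 * x.x11 + x.x0 * x.x1 * x.x7 + x.x1 * x.x2 * x.x5 - x.x0 * x.x1 * x.x1 * x.x2,
    x.x17 - x.x0 * x.x13 - x.x5 * x.x6 + x.x0 * x.x1 * x.x6,
    x.x18 - x.x0 * x.x13 - x.x5 * x.x6 + x.x0 * x.x1 * x.x6,
    0,
    x.x20 - x.x10 * x.x5 - x.x11 * x.x5 + x.x0 * x.x5 * x.x7 + x.x2 * x.x5 * x.x5 - x.x0 * x.x1 * x.x2 * x.x5,
    0,
    x.x22 - x.x10 * x.x14 - x.x11 * x.x14 - x.x17 * x.x8 + x.x18 * x.x8 + x.x0 * x.x14 * x.x7 + x.x14 * x.x2 * x.x5 - x.x0 * x.x1 * x.x14 * x.x2⟩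

theorem pa_mem (x : G k) : x.pa ∈ A k := by simp [mem_A, G.pa]

theorem pb_mem (x : G k) : x.pb ∈ B k := by simp [mem_B, G.pb]

theorem pa_mul_pb (x : G k) : x = x.pa * x.pb := by
  ext <;> simp only [mul_def, G.mul, G.pa, G.pb] <;> ring

def G.com (x y : G k) : G k :=
  ⟨0,
    0,
    0,
    0,
    x.x0 * y.x1 - x.x1 * y.x0,
    -x.x0 * y.x1 + x.x1 * y.x0,
    0,
    0,
    0,
    0,
    0,
    0,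
    0,
    0,
    x.x1 * y.x9 - x.x9 * y.x1,
    x.x1 * y.x9 - x.x9 * y.x1,
    x.x1 * y.x12 - x.x12 * y.x1,
    0,
    x.x1 * y.x12 - x.x12 * y.x1,
    0,
    -x.x0 * y.x16 + x.x0 * y.x18 - x.x12 * y.x4 - x.x12 * y.x5 + x.x16 * y.x0 - x.x18 * y.x0 + x.x4 * y.x12 + x.x5 * y.x12 - x.x0 * x.x1 * y.x12 - x.x0 * y.x1 * y.x12 + x.x1 * x.x12 * y.x0 + x.x12 * y.x0 * y.x1,
    0,
    -x.x12 * y.x14 + x.x12 * y.x15 + x.x14 * y.x12 - x.x15 * y.x12 + x.x16 * y.x9 + x.x17 * y.x9 - x.x18 * y.x9 - x.x9 * y.x16 - x.x9 * y.x17 + x.x9 * y.x18 + x.x1 * x.x12 * y.x9 - x.x1 * x.x9 * y.x12 + x.x12 * y.x1 * y.x9 - x.x9 * y.x1 * y.x12⟩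

theorem com_spec {x y : G k} (hx : x ∈ B k) (hy : y ∈ B k) : x * y = x.com y * (y * x) := by
  obtain ⟨h2, h3, h6, h7, h8, h10, h11, h13, h19, h21⟩ := hx
  obtain ⟨g2, g3, g6, g7, g8, g10, g11, g13, g19, g21⟩ := hy
  ext <;> simp only [mul_def, G.mul, G.com, h2, h3, h6, h7, h8, h10, h11, h13, h19, h21, g2, g3, g6, g7, g8, g10, g11, g13, g19, g21] <;> ring

theorem com_central (x y : G k) {z : G k} (hz : z ∈ B k) : x.com y * z = z * x.com y := by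
  obtain ⟨h2, h3, h6, h7, h8, h10, h11, h13, h19, h21⟩ := hz
  ext <;> simp only [mul_def, G.mul, G.com, h2, h3, h6, h7, h8, h10, h11, h13, h19, h21] <;> ring

def eX : G k := ⟨0, 1, 0, 0, 0, 0, 0, 0, 0, 0, 0, 0, 0, 0, 0, 0, 0, 0, 0, 0, 0, 0, 0⟩
def eY : G k := ⟨1, 0, 0, 0, 0, 0, 0, 0, 0, 0, 0, 0, 0, 0, 0, 0, 0, 0, 0, 0, 0, 0, 0⟩
def eC : G k := ⟨0, 0, 1, 0, 0, 0, 0, 0, 0, 0, 0, 0, 0, 0, 0, 0, 0, 0, 0, 0, 0, 0, 0⟩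
def eA : G k := ⟨0, 0, 0, 1, 0, 0, 0, 0, 0, 0, 0, 0, 0, 0, 0, 0, 0, 0, 0, 0, 0, 0, 0⟩
def eU : G k := ⟨0, 0, 0, 0, -1, 1, 0, 0, 0, 0, 0, 0, 0, 0, 0, 0, 0, 0, 0, 0, 0, 0, 0⟩
def a1 : G k := ⟨0, 0, 0, 1, 0, 0, 0, 0, 0, 0, 0, 0, 0, 0, 0, 0, 0, 0, 0, 0, 0, 0, 0⟩
def b1 : G k := ⟨0, 0, 0, 0, -1, 1, 0, 0, 0, 0, 0, 0, 0, 0, 1, 0, 0, 0, 0, 0, 0, 0, 0⟩
def a2 : G k := ⟨0, 0, 1, 0, 0, 0, 0, 0, 0, 0, -1, -1, 0, 0, 0, 0, 0, 0, 0, 0, 0, 0, 0⟩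
def b2 : G k := ⟨0, 0, 0, 0, -1, 1, 0, 0, 0, 0, 0, 0, -1, 0, 0, 0, 0, 0, 0, 0, 2, 0, 0⟩

theorem eX_mem : (eX : G k) ∈ B k := by simp [mem_B, eX]
theorem eY_mem : (eY : G k) ∈ B k := by simp [mem_B, eY]
theorem b1_mem : (b1 : G k) ∈ B k := by simp [mem_B, b1]
theorem b2_mem : (b2 : G k) ∈ B k := by simp [mem_B, b2]
theorem eA_mem : (eA : G k) ∈ A k := by simp [mem_A, eA]
theorem eC_mem : (eC : G k) ∈ A k := by simp [mem_A, eC]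
theorem a1_mem : (a1 : G k) ∈ A k := by simp [mem_A, a1]
theorem a2_mem : (a2 : G k) ∈ A k := by simp [mem_A, a2]

theorem eU_eq : (eX : G k) * eY = eU * (eY * eX) := by
  ext <;> simp only [mul_def, G.mul, eX, eY, eU] <;> ring

theorem b1_eq : (eU : G k) * eA = a1 * b1 := by
  ext <;> simp only [mul_def, G.mul, eU, eA, a1, b1] <;> ring

theorem b2_eq : (eU : G k) * eC = a2 * b2 := by
  ext <;> simp only [mul_def, G.mul, eU, eC, a2, b2] <;> ring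

theorem b1_b2_ne [Nontrivial k] : (b1 : G k) * b2 ≠ b2 * b1 := by
  intro h
  have h22 := congrArg G.x22 h
  simp only [mul_def, G.mul, b1, b2] at h22
  norm_num at h22

def equivFun (k : Type) : G k ≃ (Fin 23 → k) where
  toFun x := ![x.x0, x.x1, x.x2, x.x3, x.x4, x.x5, x.x6, x.x7, x.x8, x.x9, x.x10, x.x11, x.x12, x.x13, x.x14, x.x15, x.x16, x.x17, x.x18, x.x19, x.x20, x.x21, x.x22]
  invFun f := ⟨f 0, f 1, f 2, f 3, f 4, f 5, f 6, f 7, f 8, f 9, f 10, f 11, f 12, f 13, f 14, f 15, f 16, f 17, f 18, f 19, f 20, f 21, f 22⟩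
  left_inv _ := rfl
  right_inv f := by
    funext i
    fin_cases i <;> rfl

end Pool.Agent.MP_c57c58_al.H48
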